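import Pool.Agent.Results.MP_32bf8a_an.TwoSparse

set_option autoImplicit false

open Complex

namespace Pool.Agent.Results.MP_32bf8a_an.TwoSparseExact

open Pool.Agent.Results.MP_32bf8a_an.TwoSparse

/-- The integer table behind the frame: row `i` lists the `i`-th entries of the three real
vectors and the real and imaginary parts of the `i`-th entry of the fourth vector. -/
def V (i t : Fin 5) : ℤ :=
  (![![-3, 1, 8, -1, 2], ![-7, 3, 6, -1, 6], ![-7, -1, 1, -3, 0], ![2, 9, -1, 3, 2],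
    ![-2, 1, 1, 2, 7]] : Fin 5 → Fin 5 → ℤ) i t

def W (a b : Fin 5) (q : Fin 4) : ℤ :=
  (![V a 0 * V b 0, V a 1 * V b 1, V a 2 * V b 2, V a 3 * V b 3 + V a 4 * V b 4] : Fin 4 → ℤ) q

def B (C : Fin 4 → ℤ) (a b : Fin 5) : ℤ :=
  C 0 * W a b 0 + C 1 * W a b 1 + C 2 * W a b 2 + C 3 * W a b 3

def P (a b : Fin 5) : ℤ := V a 3 * V b 4 - V a 4 * V b 3

def d3 (a b c : Fin 4 → ℤ) (x y z : Fin 4) : ℤ :=
  a x * (b y * c z - b z * c y) - a y * (b x * c z - b z * c x) + a z * (b x * c y - b y * c x)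

def cr (m i k : Fin 5) : Fin 4 → ℤ :=
  ![d3 (W m m) (W m i) (W m k) 1 2 3, - d3 (W m m) (W m i) (W m k) 0 2 3,
    d3 (W m m) (W m i) (W m k) 0 1 3, - d3 (W m m) (W m i) (W m k) 0 1 2]

def G (t : Fin 15) : Fin 4 → ℤ :=
  (![![-1, -1, 1, 2], ![-1, 10, 3, -1], ![2, -1, 1, -1], ![1, -1, 1, -4], ![1, -11, 1, -1],
    ![1, -1, 1, -1], ![0, 1, 1, -2], ![-1, 1, 1, -1], ![-1, 1, 1, -1], ![-1, -5, 1, 1],
    ![-2, -1, 1, 1], ![-1, -1, 1, 1], ![1, -1, 3, -1], ![-1, 1, 3, -1],
    ![-1, -1, 2, 1]] : Fin 15 → Fin 4 → ℤ) t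

def GG (t : Fin 15) (s : Bool) : Fin 4 → ℤ := fun q => if s then G t q else - G t q

set_option maxRecDepth 100000 in
theorem cent : ∀ m i k : Fin 5, m ≠ i → m ≠ k → i ≠ k →
    B (cr m i k) m m = 0 ∧ B (cr m i k) m i = 0 ∧ B (cr m i k) m k = 0 ∧
      B (cr m i k) i i * B (cr m i k) k k < 0 := by
  decide +kernel

set_option maxRecDepth 100000 in
theorem pairs : ∀ a b : Fin 5, a ≠ b → (∃ q, W a b q ≠ 0) ∧ P a b ≠ 0 := by
  decide +kernel

set_option maxRecDepth 100000 in
theorem disj : ∀ a b c d : Fin 5, a ≠ b → a ≠ c → a ≠ d → b ≠ c → b ≠ d → c ≠ d →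
    ∃ t : Fin 15, ∃ s : Bool, 0 < B (GG t s) a a ∧
      B (GG t s) a b ^ 2 < B (GG t s) a a * B (GG t s) b b ∧ B (GG t s) c c < 0 ∧
      B (GG t s) c d ^ 2 < B (GG t s) c c * B (GG t s) d d := by
  decide +kernel

theorem W_symm (a b : Fin 5) (q : Fin 4) : W a b q = W b a q := by
  revert a b q
  decide +kernel

/-- the five vectors: three real ones and a pair of complex conjugate ones -/
noncomputable def five : Fin 5 → EuclideanSpace ℂ (Fin 5) := fun j => WithLp.toLp 2 fun i =>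
  (![(V i 0 : ℂ), (V i 1 : ℂ), (V i 2 : ℂ), (V i 3 : ℂ) + I * (V i 4 : ℂ),
    (V i 3 : ℂ) - I * (V i 4 : ℂ)] : Fin 5 → ℂ) j

theorem sparse_supp {x : EuclideanSpace ℂ (Fin 5)} (h : Sparse 2 x) :
    ∃ a b : Fin 5, a ≠ b ∧ ∀ i, i ≠ a → i ≠ b → x i = 0 := by
  obtain ⟨T, hT, hc⟩ := Finset.exists_superset_card_eq (s := Finset.univ.filter fun i => x i ≠ 0)
    (n := 2) h (by simp)
  obtain ⟨a, b, hab, rfl⟩ := Finset.card_eq_two.mp hc
  refine ⟨a, b, hab, fun i hia hib => ?_⟩
  by_contra hne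
  have h1 := hT (Finset.mem_filter.mpr ⟨Finset.mem_univ i, hne⟩)
  simp only [Finset.mem_insert, Finset.mem_singleton] at h1
  rcases h1 with h1 | h1
  · exact hia h1
  · exact hib h1

theorem inner_supp {x : EuclideanSpace ℂ (Fin 5)} {a b : Fin 5} (hab : a ≠ b)
    (h : ∀ i, i ≠ a → i ≠ b → x i = 0) (f : EuclideanSpace ℂ (Fin 5)) :
    inner ℂ f x = (starRingEnd ℂ) (f a) * x a + (starRingEnd ℂ) (f b) * x b := by
  rw [inner_eq]
  exact Fintype.sum_eq_add a b hab fun i hi => by rw [h i hi.1 hi.2, mul_zero]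

/-- the quadratic expression -/
noncomputable def Qf (C : Fin 4 → ℤ) (a b : Fin 5) (X Y : ℂ) : ℝ :=
  (B C a a : ℝ) * normSq X + (B C b b : ℝ) * normSq Y +
    2 * (B C a b : ℝ) * (X * (starRingEnd ℂ) Y).re

theorem meas {x y : EuclideanSpace ℂ (Fin 5)} {a b c d : Fin 5} (hab : a ≠ b) (hcd : c ≠ d)
    (hx : ∀ i, i ≠ a → i ≠ b → x i = 0) (hy : ∀ i, i ≠ c → i ≠ d → y i = 0)
    (h : ∀ j, ‖inner ℂ (five j) x‖ = ‖inner ℂ (five j) y‖) :
    (∀ C : Fin 4 → ℤ, Qf C a b (x a) (x b) = Qf C c d (y c) (y d)) ∧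
      (P a b : ℝ) * (x a * (starRingEnd ℂ) (x b)).im =
        (P c d : ℝ) * (y c * (starRingEnd ℂ) (y d)).im := by
  have h0 := h 0
  have h1 := h 1
  have h2 := h 2
  have h3 := h 3
  have h4 := h 4
  rw [inner_supp hab hx, inner_supp hcd hy] at h0 h1 h2 h3 h4
  have key : ∀ {u w : ℂ}, ‖u‖ = ‖w‖ → normSq u = normSq w := by
    intro u w huw
    rw [Complex.normSq_eq_norm_sq, Complex.normSq_eq_norm_sq, huw]
  replace h0 := key h0
  replace h1 := key h1
  replace h2 := key h2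
  replace h3 := key h3
  replace h4 := key h4
  simp only [five, Matrix.cons_val_zero, Matrix.cons_val_one, Matrix.cons_val, map_intCast,
    map_add, map_sub, map_mul, Complex.conj_I, Complex.normSq_apply, Complex.add_re,
    Complex.add_im, Complex.sub_re, Complex.sub_im, Complex.mul_re, Complex.mul_im,
    Complex.intCast_re, Complex.intCast_im, Complex.I_re, Complex.I_im, Complex.neg_re,
    Complex.neg_im] at h0 h1 h2 h3 h4
  constructor
  · intro C
    simp only [Qf, B, W, Matrix.cons_val_zero, Matrix.cons_val_one, Matrix.cons_val,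
      Complex.normSq_apply, Complex.mul_re, Complex.conj_re, Complex.conj_im]
    push_cast
    linear_combination (C 0 : ℝ) * h0 + (C 1 : ℝ) * h1 + (C 2 : ℝ) * h2 +
      (C 3 : ℝ) / 2 * h3 + (C 3 : ℝ) / 2 * h4
  · simp only [P, Complex.mul_im, Complex.conj_re, Complex.conj_im]
    push_cast
    linear_combination (1 / 4 : ℝ) * h4 - (1 / 4 : ℝ) * h3


theorem third : ∀ a b : Fin 5, ∃ k : Fin 5, a ≠ k ∧ b ≠ k := by decide

theorem B_symm (C : Fin 4 → ℤ) (a b : Fin 5) : B C a b = B C b a := by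
  simp only [B, W_symm a b]

theorem two_phase {X Y Z T : ℂ} (h1 : normSq X = normSq Z) (h2 : normSq Y = normSq T)
    (h3 : X * (starRingEnd ℂ) Y = Z * (starRingEnd ℂ) T) :
    ∃ u : ℂ, ‖u‖ = 1 ∧ X = u * Z ∧ Y = u * T := by
  have hn : ∀ {p q : ℂ}, normSq p = normSq q → ‖p‖ = ‖q‖ := by
    intro p q h
    rw [Complex.normSq_eq_norm_sq, Complex.normSq_eq_norm_sq] at h
    exact (sq_eq_sq₀ (norm_nonneg _) (norm_nonneg _)).mp h
  by_cases hZ : Z = 0
  · subst hZ
    have hX : X = 0 := by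
      rw [normSq_zero] at h1
      exact normSq_eq_zero.mp h1
    by_cases hT : T = 0
    · subst hT
      have hY : Y = 0 := by
        rw [normSq_zero] at h2
        exact normSq_eq_zero.mp h2
      exact ⟨1, norm_one, by simp [hX], by simp [hY]⟩
    · refine ⟨Y / T, ?_, by simp [hX], ?_⟩
      · rw [norm_div, hn h2, div_self (norm_ne_zero_iff.mpr hT)]
      · rw [div_mul_cancel₀ _ hT]
  · have hu : ‖X / Z‖ = 1 := by
      rw [norm_div, hn h1, div_self (norm_ne_zero_iff.mpr hZ)]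
    have hX : X = X / Z * Z := by rw [div_mul_cancel₀ _ hZ]
    refine ⟨X / Z, hu, hX, ?_⟩
    obtain ⟨u, hu'⟩ : ∃ u, u = X / Z := ⟨_, rfl⟩
    rw [← hu'] at hu hX ⊢
    have huu : u * (starRingEnd ℂ) u = 1 := by
      rw [Complex.mul_conj, Complex.normSq_eq_norm_sq, hu]
      norm_num
    have h4 : u * (starRingEnd ℂ) Y = (starRingEnd ℂ) T := by
      rw [hX] at h3
      apply mul_left_cancel₀ hZ
      rw [← h3]
      ring
    have h5 := congrArg (starRingEnd ℂ) h4
    rw [map_mul, Complex.conj_conj, Complex.conj_conj] at h5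
    rw [← h5, ← mul_assoc, huu, one_mul]

theorem same {a b : Fin 5} (hab : a ≠ b) {X Y Z T : ℂ}
    (hQ : ∀ C : Fin 4 → ℤ, Qf C a b X Y = Qf C a b Z T)
    (hP : (P a b : ℝ) * (X * (starRingEnd ℂ) Y).im = (P a b : ℝ) * (Z * (starRingEnd ℂ) T).im) :
    ∃ u : ℂ, ‖u‖ = 1 ∧ X = u * Z ∧ Y = u * T := by
  obtain ⟨k, hak, hbk⟩ := third a b
  have hY : normSq Y = normSq T := by
    obtain ⟨e1, e2, -, e4⟩ := cent a b k hab hak hbk
    have h1 := hQ (cr a b k)
    simp only [Qf, e1, e2] at h1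
    push_cast at h1
    have h2 : (B (cr a b k) b b : ℝ) ≠ 0 := by
      intro h0
      have h0' : B (cr a b k) b b = 0 := by exact_mod_cast h0
      rw [h0', zero_mul] at e4
      exact lt_irrefl _ e4
    have h3 : (B (cr a b k) b b : ℝ) * (normSq Y - normSq T) = 0 := by linarith
    rcases mul_eq_zero.mp h3 with h4 | h4
    · exact absurd h4 h2
    · linarith
  have hX : normSq X = normSq Z := by
    obtain ⟨e1, e2, -, e4⟩ := cent b a k hab.symm hbk hak
    have h1 := hQ (cr b a k)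
    rw [B_symm] at e2
    simp only [Qf, e1, e2] at h1
    push_cast at h1
    have h2 : (B (cr b a k) a a : ℝ) ≠ 0 := by
      intro h0
      have h0' : B (cr b a k) a a = 0 := by exact_mod_cast h0
      rw [h0', zero_mul] at e4
      exact lt_irrefl _ e4
    have h3 : (B (cr b a k) a a : ℝ) * (normSq X - normSq Z) = 0 := by linarith
    rcases mul_eq_zero.mp h3 with h4 | h4
    · exact absurd h4 h2
    · linarith
  obtain ⟨⟨q, hq⟩, hp⟩ := pairs a b hab
  have hre : (X * (starRingEnd ℂ) Y).re = (Z * (starRingEnd ℂ) T).re := by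
    have h1 := hQ (Pi.single q 1)
    have hB : ∀ i j, B (Pi.single q 1) i j = W i j q := by
      intro i j
      fin_cases q <;> simp [B]
    simp only [Qf, hB, hX, hY] at h1
    have h2 : (W a b q : ℝ) * ((X * (starRingEnd ℂ) Y).re - (Z * (starRingEnd ℂ) T).re) = 0 := by
      linarith
    rcases mul_eq_zero.mp h2 with h3 | h3
    · exact absurd (by exact_mod_cast h3) hq
    · linarith
  have him : (X * (starRingEnd ℂ) Y).im = (Z * (starRingEnd ℂ) T).im :=
    mul_left_cancel₀ (by exact_mod_cast hp) hP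
  exact two_phase hX hY (Complex.ext hre him)

theorem share {m i k : Fin 5} (hmi : m ≠ i) (hmk : m ≠ k) (hik : i ≠ k) {X Y Z T : ℂ}
    (hQ : ∀ C : Fin 4 → ℤ, Qf C m i X Y = Qf C m k Z T) : Y = 0 ∧ T = 0 := by
  obtain ⟨e1, e2, e3, e4⟩ := cent m i k hmi hmk hik
  have h1 := hQ (cr m i k)
  simp only [Qf, e1, e2, e3] at h1
  push_cast at h1
  have h5 : (B (cr m i k) i i : ℝ) * (B (cr m i k) k k : ℝ) < 0 := by exact_mod_cast e4
  have h6 : (B (cr m i k) i i : ℝ) * normSq Y = (B (cr m i k) k k : ℝ) * normSq T := by linarith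
  have hY0 := normSq_nonneg Y
  have hT0 := normSq_nonneg T
  have h7 : (B (cr m i k) i i : ℝ) ^ 2 * normSq Y =
      (B (cr m i k) i i : ℝ) * (B (cr m i k) k k : ℝ) * normSq T := by
    rw [mul_assoc, ← h6]
    ring
  have h8 : 0 ≤ (B (cr m i k) i i : ℝ) ^ 2 * normSq Y := mul_nonneg (sq_nonneg _) hY0
  have hT : normSq T = 0 := by
    by_contra hne
    have h9 : 0 < normSq T := lt_of_le_of_ne hT0 (Ne.symm hne)
    have h10 := mul_neg_of_neg_of_pos h5 h9
    linarith
  have hY : normSq Y = 0 := by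
    rw [hT, mul_zero] at h7
    rcases mul_eq_zero.mp h7 with h9 | h9
    · exfalso
      have h10 : (B (cr m i k) i i : ℝ) = 0 := by
        exact pow_eq_zero_iff (two_ne_zero) |>.mp h9
      rw [h10, zero_mul] at h5
      exact lt_irrefl _ h5
    · exact h9
  exact ⟨normSq_eq_zero.mp hY, normSq_eq_zero.mp hT⟩

theorem posdef {p q r : ℝ} (hp : 0 < p) (hd : r ^ 2 < p * q) (X Y : ℂ) :
    0 ≤ p * normSq X + q * normSq Y + 2 * r * (X * (starRingEnd ℂ) Y).re ∧
      (p * normSq X + q * normSq Y + 2 * r * (X * (starRingEnd ℂ) Y).re = 0 →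
        X = 0 ∧ Y = 0) := by
  have h1 : p * (p * normSq X + q * normSq Y + 2 * r * (X * (starRingEnd ℂ) Y).re) =
      normSq (p * X + r * Y) + (p * q - r ^ 2) * normSq Y := by
    simp only [Complex.normSq_apply, Complex.add_re, Complex.add_im, Complex.mul_re,
      Complex.mul_im, Complex.ofReal_re, Complex.ofReal_im, Complex.conj_re, Complex.conj_im]
    ring
  have h2 := normSq_nonneg (p * X + r * Y : ℂ)
  have h3 := normSq_nonneg Y
  have h4 : 0 < p * q - r ^ 2 := by linarith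
  have h5 := mul_nonneg h4.le h3
  refine ⟨?_, fun h0 => ?_⟩
  · by_contra hcon
    push Not at hcon
    have := mul_neg_of_pos_of_neg hp hcon
    linarith
  · rw [h0, mul_zero] at h1
    have hY : normSq Y = 0 := by
      have h6 : (p * q - r ^ 2) * normSq Y = 0 := by linarith
      rcases mul_eq_zero.mp h6 with h7 | h7
      · exact absurd h7 h4.ne'
      · exact h7
    have hY' := normSq_eq_zero.mp hY
    have hX : normSq (p * X + r * Y : ℂ) = 0 := by linarith
    have hX' := normSq_eq_zero.mp hX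
    rw [hY', mul_zero, add_zero] at hX'
    rcases mul_eq_zero.mp hX' with h7 | h7
    · exact absurd (by exact_mod_cast h7) hp.ne'
    · exact ⟨h7, hY'⟩

theorem apart {a b c d : Fin 5} (h1 : a ≠ b) (h2 : a ≠ c) (h3 : a ≠ d) (h4 : b ≠ c)
    (h5 : b ≠ d) (h6 : c ≠ d) {X Y Z T : ℂ}
    (hQ : ∀ C : Fin 4 → ℤ, Qf C a b X Y = Qf C c d Z T) : (X = 0 ∧ Y = 0) ∧ Z = 0 ∧ T = 0 := by
  obtain ⟨t, s, e1, e2, e3, e4⟩ := disj a b c d h1 h2 h3 h4 h5 h6
  have hq := hQ (GG t s)
  have f1 : (0 : ℝ) < (B (GG t s) a a : ℝ) := by exact_mod_cast e1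
  have f2 : (B (GG t s) a b : ℝ) ^ 2 < (B (GG t s) a a : ℝ) * (B (GG t s) b b : ℝ) := by
    exact_mod_cast e2
  have f3 : (0 : ℝ) < -(B (GG t s) c c : ℝ) := by
    have : (B (GG t s) c c : ℝ) < 0 := by exact_mod_cast e3
    linarith
  have f4 : (-(B (GG t s) c d : ℝ)) ^ 2 < -(B (GG t s) c c : ℝ) * -(B (GG t s) d d : ℝ) := by
    have : (B (GG t s) c d : ℝ) ^ 2 < (B (GG t s) c c : ℝ) * (B (GG t s) d d : ℝ) := by
      exact_mod_cast e4
    linarith
  obtain ⟨g1, g2⟩ := posdef f1 f2 X Y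
  obtain ⟨g3, g4⟩ := posdef f3 f4 Z T
  simp only [Qf] at hq
  exact ⟨g2 (by linarith), g4 (by linarith)⟩

theorem eq_smul_of_supp {x y : EuclideanSpace ℂ (Fin 5)} {a b : Fin 5}
    (hx : ∀ i, i ≠ a → i ≠ b → x i = 0) (hy : ∀ i, i ≠ a → i ≠ b → y i = 0) {u : ℂ}
    (h1 : x a = u * y a) (h2 : x b = u * y b) : x = u • y := by
  ext i
  rw [PiLp.smul_apply, smul_eq_mul]
  by_cases ha : i = a
  · rw [ha, h1]
  · by_cases hb : i = b
    · rw [hb, h2]
    · rw [hx i ha hb, hy i ha hb, mul_zero]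

theorem finish_same {x y : EuclideanSpace ℂ (Fin 5)} {a b : Fin 5} (hab : a ≠ b)
    (hx : ∀ i, i ≠ a → i ≠ b → x i = 0) (hy : ∀ i, i ≠ a → i ≠ b → y i = 0)
    (h : ∀ j, ‖inner ℂ (five j) x‖ = ‖inner ℂ (five j) y‖) : ∃ c : ℂ, ‖c‖ = 1 ∧ x = c • y := by
  obtain ⟨h1, h2⟩ := meas hab hab hx hy h
  obtain ⟨u, hu, e1, e2⟩ := same hab h1 h2
  exact ⟨u, hu, eq_smul_of_supp hx hy e1 e2⟩

theorem finish_share {x y : EuclideanSpace ℂ (Fin 5)} {m i k : Fin 5} (hmi : m ≠ i)
    (hmk : m ≠ k) (hik : i ≠ k) (hx : ∀ j, j ≠ m → j ≠ i → x j = 0)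
    (hy : ∀ j, j ≠ m → j ≠ k → y j = 0)
    (h : ∀ j, ‖inner ℂ (five j) x‖ = ‖inner ℂ (five j) y‖) : ∃ c : ℂ, ‖c‖ = 1 ∧ x = c • y := by
  obtain ⟨h1, -⟩ := meas hmi hmk hx hy h
  obtain ⟨-, e2⟩ := share hmi hmk hik h1
  refine finish_same hmi hx (fun j hjm hji => ?_) h
  by_cases hjk : j = k
  · rw [hjk, e2]
  · exact hy j hjm hjk

theorem five_allows : Allows 2 five := by
  intro x y hx hy h
  obtain ⟨a, b, hab, hxs⟩ := sparse_supp hx
  obtain ⟨c, d, hcd, hys⟩ := sparse_supp hy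
  by_cases hac : a = c
  · subst hac
    by_cases hbd : b = d
    · subst hbd
      exact finish_same hab hxs hys h
    · exact finish_share hab hcd hbd hxs hys h
  · by_cases had : a = d
    · subst had
      have hys' : ∀ i, i ≠ a → i ≠ c → y i = 0 := fun i h1 h2 => hys i h2 h1
      by_cases hbc : b = c
      · subst hbc
        exact finish_same hab hxs hys' h
      · exact finish_share hab hac hbc hxs hys' h
    · have hxs' : ∀ i, i ≠ b → i ≠ a → x i = 0 := fun i h1 h2 => hxs i h2 h1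
      by_cases hbc : b = c
      · subst hbc
        exact finish_share hab.symm hcd had hxs' hys h
      · by_cases hbd : b = d
        · subst hbd
          exact finish_share hab.symm hcd.symm hac hxs' (fun i h1 h2 => hys i h2 h1) h
        · obtain ⟨h1, -⟩ := meas hab hcd hxs hys h
          obtain ⟨⟨e1, e2⟩, e3, e4⟩ := apart hab hac had hbc hbd hcd h1
          refine ⟨1, norm_one, ?_⟩
          have hx0 : ∀ i, x i = 0 := by
            intro i
            by_cases hia : i = a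
            · rw [hia, e1]
            · by_cases hib : i = b
              · rw [hib, e2]
              · exact hxs i hia hib
          have hy0 : ∀ i, y i = 0 := by
            intro i
            by_cases hia : i = c
            · rw [hia, e3]
            · by_cases hib : i = d
              · rw [hib, e4]
              · exact hys i hia hib
          ext i
          rw [PiLp.smul_apply, hx0, hy0, smul_zero]

theorem frame_iff {n N : ℕ} (f : Fin N → EuclideanSpace ℂ (Fin n)) :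
    IsFrame f ↔ ∀ x : EuclideanSpace ℂ (Fin n), (∀ j, inner ℂ (f j) x = 0) → x = 0 := by
  unfold IsFrame
  rw [← Submodule.orthogonal_eq_bot_iff, Submodule.eq_bot_iff]
  constructor
  · intro h x hx
    refine h x ?_
    rw [Submodule.mem_orthogonal]
    intro u hu
    induction hu using Submodule.span_induction with
    | mem u hu =>
      obtain ⟨j, rfl⟩ := hu
      exact hx j
    | zero => exact inner_zero_left _
    | add u w _ _ hu hw => rw [inner_add_left, hu, hw, add_zero]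
    | smul c u _ hu => rw [inner_smul_left, hu, mul_zero]
  · intro h x hx
    refine h x fun j => ?_
    rw [Submodule.mem_orthogonal] at hx
    exact hx _ (Submodule.subset_span ⟨j, rfl⟩)

theorem five_frame : IsFrame five := by
  rw [frame_iff]
  intro x hx
  have h0 := hx 0
  have h1 := hx 1
  have h2 := hx 2
  have h3 := hx 3
  have h4 := hx 4
  simp only [inner_eq, five, Fin.sum_univ_five, V, Matrix.cons_val_zero, Matrix.cons_val_one,
    Matrix.cons_val, map_intCast, map_add, map_sub, map_mul, Complex.conj_I] at h0 h1 h2 h3 h4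
  push_cast at h0 h1 h2 h3 h4
  have s0 : -3 * x 0 - 7 * x 1 - 7 * x 2 + 2 * x 3 - 2 * x 4 = 0 := by linear_combination h0
  have s1 : 1 * x 0 + 3 * x 1 - 1 * x 2 + 9 * x 3 + 1 * x 4 = 0 := by linear_combination h1
  have s2 : 8 * x 0 + 6 * x 1 + 1 * x 2 - 1 * x 3 + 1 * x 4 = 0 := by linear_combination h2
  have s3 : -1 * x 0 - 1 * x 1 - 3 * x 2 + 3 * x 3 + 2 * x 4 = 0 := by
    linear_combination (1 / 2 : ℂ) * h3 + (1 / 2 : ℂ) * h4
  have s4 : 2 * x 0 + 6 * x 1 + 0 * x 2 + 2 * x 3 + 7 * x 4 = 0 := by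
    have hI : I * I = -1 := Complex.I_mul_I
    linear_combination (1 / 2 : ℂ) * I * h3 - (1 / 2 : ℂ) * I * h4 + (2 * x 0 + 6 * x 1 + 0 * x 2 + 2 * x 3 + 7 * x 4) * hI
  have e0 : x 0 = 0 := by linear_combination (1 / 1438 : ℂ) * ((-734) * s0 + (-265) * s1 + (372) * s2 + (1925) * s3 + (-775) * s4)
  have e1 : x 1 = 0 := by linear_combination (1 / 1438 : ℂ) * ((1206) * s0 + (455) * s1 + (-286) * s2 + (-3061) * s3 + (1195) * s4)
  have e2 : x 2 = 0 := by linear_combination (1 / 1438 : ℂ) * ((-990) * s0 + (-234) * s1 + (106) * s2 + (1944) * s3 + (-820) * s4)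
  have e3 : x 3 = 0 := by linear_combination (1 / 1438 : ℂ) * ((-350) * s0 + (48) * s1 + (52) * s2 + (818) * s3 + (-348) * s4)
  have e4 : x 4 = 0 := by linear_combination (1 / 1438 : ℂ) * ((-724) * s0 + (-328) * s1 + (124) * s2 + (1840) * s3 + (-498) * s4)
  ext i
  fin_cases i
  · exact e0
  · exact e1
  · exact e2
  · exact e3
  · exact e4

/-- extension of a vector by one zero coordinate -/
noncomputable def up {n : ℕ} (x : EuclideanSpace ℂ (Fin n)) : EuclideanSpace ℂ (Fin (n + 1)) :=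
  WithLp.toLp 2 (Fin.snoc (α := fun _ => ℂ) (fun i => x i) 0)

theorem up_castSucc {n : ℕ} (x : EuclideanSpace ℂ (Fin n)) (i : Fin n) :
    up x (Fin.castSucc i) = x i :=
  Fin.snoc_castSucc (α := fun _ => ℂ) 0 (fun i => x i) i

theorem up_last {n : ℕ} (x : EuclideanSpace ℂ (Fin n)) : up x (Fin.last n) = 0 :=
  Fin.snoc_last (α := fun _ => ℂ) 0 (fun i => x i)

theorem up_sparse {n k : ℕ} {x : EuclideanSpace ℂ (Fin n)} (h : Sparse k x) :
    Sparse k (up x) := by
  unfold Sparse at h ⊢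
  refine le_trans ?_ h
  rw [← Finset.card_map (Fin.castSuccEmb (n := n))]
  refine Finset.card_le_card fun i hi => ?_
  rw [Finset.mem_filter] at hi
  refine Fin.lastCases (motive := fun i => up x i ≠ 0 → i ∈ _) ?_ ?_ i hi.2
  · intro h0
    exact absurd (up_last x) h0
  · intro j hj
    rw [up_castSucc] at hj
    exact Finset.mem_map.mpr ⟨j, Finset.mem_filter.mpr ⟨Finset.mem_univ _, hj⟩, rfl⟩

theorem inner_up {n : ℕ} (f : EuclideanSpace ℂ (Fin (n + 1))) (x : EuclideanSpace ℂ (Fin n)) :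
    inner ℂ f (up x) =
      inner ℂ (WithLp.toLp 2 (fun i => f (Fin.castSucc i)) : EuclideanSpace ℂ (Fin n)) x := by
  rw [inner_eq, inner_eq, Fin.sum_univ_castSucc, up_last, mul_zero, add_zero]
  exact Finset.sum_congr rfl fun i _ => by rw [up_castSucc]

/-- deleting a coordinate does not increase the number of vectors needed -/
theorem Nmin_succ (n k : ℕ) (hk : 1 ≤ k) : Nmin n k ≤ Nmin (n + 1) k := by
  obtain ⟨f, hf, ha⟩ := Nmin_mem (n := n + 1) (k := k) (by omega) hk
  refine Nat.sInf_le ⟨fun j => WithLp.toLp 2 fun i => f j (Fin.castSucc i), ?_, ?_⟩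
  · rw [frame_iff] at hf ⊢
    intro x hx
    have h1 := hf (up x) fun j => by rw [inner_up]; exact hx j
    ext i
    rw [← up_castSucc, h1]
    rfl
  · intro x y hx hy h
    obtain ⟨c, hc, e⟩ := ha (up x) (up y) (up_sparse hx) (up_sparse hy) fun j => by
      rw [inner_up, inner_up]
      exact h j
    refine ⟨c, hc, ?_⟩
    ext i
    rw [PiLp.smul_apply, ← up_castSucc x, ← up_castSucc y, e, PiLp.smul_apply]

theorem Nmin_five_two : Nmin 5 2 = 5 :=
  le_antisymm (Nat.sInf_le ⟨five, five_frame, five_allows⟩) (five_le (by norm_num) le_rfl)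

/-- The complete answer for sparsity two. -/
theorem result : Nmin 2 2 = 4 ∧ ∀ n : ℕ, 3 ≤ n → Nmin n 2 = max n 5 := by
  refine ⟨le_antisymm (Nmin_le 2) (Nmin_ge3 (k := 2) (by norm_num) le_rfl), fun n hn => ?_⟩
  refine le_antisymm ?_ (max_le (Nmin_ge (by omega) (by norm_num)) (five_le hn le_rfl))
  rcases Nat.lt_or_ge n 6 with h | h
  · have h5 : Nmin n 2 ≤ Nmin 5 2 := by
      interval_cases n
      · exact (Nmin_succ 3 2 (by norm_num)).trans (Nmin_succ 4 2 (by norm_num))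
      · exact Nmin_succ 4 2 (by norm_num)
      · exact le_rfl
    rw [Nmin_five_two] at h5
    exact h5.trans (le_max_right _ _)
  · exact (Nmin_general (n := n) (k := 2) (by omega) (by norm_num)).trans
      (max_le (le_max_left _ _) (by omega))

end Pool.Agent.Results.MP_32bf8a_an.TwoSparseExact
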